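import Mathlib

set_option autoImplicit false

namespace Pool.Agent.Results.MP_42a2a8_gt.Rays

open Set Filter Topology

/-- `P` is a π-base. -/
def IsPiBase {X : Type*} [TopologicalSpace X] (P : Set (Set X)) : Prop :=
  (∀ U ∈ P, IsOpen U ∧ U.Nonempty) ∧ ∀ V : Set X, IsOpen V → V.Nonempty → ∃ U ∈ P, U ⊆ V

structure ZZ : Type where
  val : ℤ

instance topZ : TopologicalSpace ZZ where
  IsOpen U := ∀ x ∈ U, ∀ y : ZZ, y.val ≤ x.val → y ∈ U
  isOpen_univ := fun _ _ _ _ => mem_univ _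
  isOpen_inter := fun _ _ hU hV x hx y hy => ⟨hU x hx.1 y hy, hV x hx.2 y hy⟩
  isOpen_sUnion := by
    rintro S hS x ⟨U, hU, hx⟩ y hy
    exact ⟨U, hU, hS U hU x hx y hy⟩

theorem isOpenZ (U : Set ZZ) : IsOpen U ↔ ∀ x ∈ U, ∀ y : ZZ, y.val ≤ x.val → y ∈ U := Iff.rfl

def L (n : ℤ) : Set ZZ := {z | z.val ≤ n}

theorem openL (n : ℤ) : IsOpen (L n) := by
  rw [isOpenZ]
  intro x hx y hy
  exact le_trans hy hx

/-- Q1 fails without a separation axiom. -/
theorem result : ∃ (X : Type) (_ : TopologicalSpace X), T0Space X ∧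
    (∀ x : X, ¬ IsOpen ({x} : Set X)) ∧
    ∃ B : Set (Set X), TopologicalSpace.IsTopologicalBasis B ∧
      ∀ B₀ ⊆ B, TopologicalSpace.IsTopologicalBasis B₀ → ∀ P ⊆ B \ B₀, ¬ IsPiBase P := by
  refine ⟨ZZ, topZ, ?_, ?_, Set.range L, ?_, ?_⟩
  · refine ⟨?_⟩
    intro x y hxy
    have h1 : y ∈ L x.val := (hxy.mem_open_iff (openL x.val)).mp (le_refl x.val)
    have h2 : x ∈ L y.val := (hxy.mem_open_iff (openL y.val)).mpr (le_refl y.val)
    have h3 : x.val = y.val := le_antisymm h2 h1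
    cases x; cases y; simp_all
  · intro x hx
    have h := (isOpenZ _).mp hx x rfl ⟨x.val - 1⟩ (by simp)
    have h2 : (x.val - 1) = x.val := congrArg ZZ.val (mem_singleton_iff.mp h)
    omega
  · apply TopologicalSpace.isTopologicalBasis_of_isOpen_of_nhds
    · rintro U ⟨n, rfl⟩
      exact openL n
    · intro x U hx hU
      refine ⟨L x.val, ⟨_, rfl⟩, le_refl x.val, ?_⟩
      intro y hy
      exact (isOpenZ U).mp hU x hx y hy
  · intro B₀ hB₀ hbase P hP hpi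
    have hall : ∀ n, L n ∈ B₀ := by
      intro n
      obtain ⟨b, hb, hnb, hbL⟩ := hbase.exists_subset_of_mem_open
        (show (⟨n⟩ : ZZ) ∈ L n from le_refl n) (openL n)
      obtain ⟨m, rfl⟩ := hB₀ hb
      have h1 : n ≤ m := hnb
      have h2 : m ≤ n := hbL (show (⟨m⟩ : ZZ) ∈ L m from le_refl m)
      have h3 : m = n := le_antisymm h2 h1
      rw [← h3]; exact hb
    obtain ⟨U, hU, _⟩ := hpi.2 univ isOpen_univ ⟨⟨0⟩, mem_univ _⟩
    obtain ⟨n, rfl⟩ := (hP hU).1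
    exact (hP hU).2 (hall n)

end Pool.Agent.Results.MP_42a2a8_gt.Rays
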