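import Mathlib

/-!
Splitting a base into a base and a pi-base.

For `T₁` spaces without isolated points that have a sigma-disjoint pi-base
(in particular a countable one), every base splits.
-/

open Set TopologicalSpace

namespace Pool.Agent.Results.MP_42a2a8_gt.SigmaDisjoint

universe u

/-- `P` is a pi-base of `X`: a family of nonempty open sets such that every nonempty open set
contains a member of `P`. -/
def IsPiBase {X : Type u} [TopologicalSpace X] (P : Set (Set X)) : Prop :=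
  (∀ U ∈ P, IsOpen U ∧ U.Nonempty) ∧
    ∀ V : Set X, IsOpen V → V.Nonempty → ∃ U ∈ P, U ⊆ V

/-- Every nonempty open set shrinks to one that is decided by all members of `A`
and contains none of them. -/
def Dec {X : Type u} [TopologicalSpace X] (A : Set (Set X)) : Prop :=
  ∀ U : Set X, IsOpen U → U.Nonempty → ∃ V : Set X, IsOpen V ∧ V.Nonempty ∧ V ⊆ U ∧
    ∀ F ∈ A, ¬ F ⊆ V ∧ (V ⊆ F ∨ Disjoint V F)

section
variable {X : Type u} [TopologicalSpace X]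

theorem dec_union (hmin : ∀ (x : X) (U : Set X), IsOpen U → x ∈ U →
      ∃ W : Set X, IsOpen W ∧ x ∈ W ∧ W ⊂ U)
    {A F : Set (Set X)} (hA : Dec A) (hF : F.PairwiseDisjoint id)
    (hFo : ∀ U ∈ F, IsOpen U ∧ U.Nonempty) : Dec (A ∪ F) := by
  intro U hU hne
  obtain ⟨V, hVo, hVne, hVU, hV⟩ := hA U hU hne
  by_cases h : ∃ G ∈ F, (V ∩ G).Nonempty
  · obtain ⟨G, hG, x, hxV, hxG⟩ := h
    obtain ⟨W, hWo, hxW, hW⟩ := hmin x (V ∩ G) (hVo.inter (hFo G hG).1) ⟨hxV, hxG⟩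
    refine ⟨W, hWo, ⟨x, hxW⟩, hW.1.trans (inter_subset_left.trans hVU), ?_⟩
    rintro H (hH | hH)
    · refine ⟨fun hc => (hV H hH).1 (hc.trans (hW.1.trans inter_subset_left)), ?_⟩
      rcases (hV H hH).2 with h1 | h1
      · exact Or.inl ((hW.1.trans inter_subset_left).trans h1)
      · exact Or.inr (h1.mono_left (hW.1.trans inter_subset_left))
    · by_cases hHG : H = G
      · subst hHG
        refine ⟨fun hc => hW.2 (fun y hy => hc hy.2), Or.inl (hW.1.trans inter_subset_right)⟩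
      · have hd : Disjoint H G := hF hH hG hHG
        have hd' : Disjoint W H := (hd.mono_right (hW.1.trans inter_subset_right)).symm
        refine ⟨fun hc => ?_, Or.inr hd'⟩
        obtain ⟨y, hy⟩ := (hFo H hH).2
        exact (Set.disjoint_left.1 hd' (hc hy)) hy
  · push Not at h
    refine ⟨V, hVo, hVne, hVU, ?_⟩
    rintro H (hH | hH)
    · exact hV H hH
    · have hd : V ∩ H = ∅ := h H hH
      refine ⟨fun hc => ?_, Or.inr (Set.disjoint_iff_inter_eq_empty.2 hd)⟩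
      obtain ⟨y, hy⟩ := (hFo H hH).2
      have : y ∈ V ∩ H := ⟨hc hy, hy⟩
      rw [hd] at this
      exact this

theorem split (hmin : ∀ (x : X) (U : Set X), IsOpen U → x ∈ U →
      ∃ W : Set X, IsOpen W ∧ x ∈ W ∧ W ⊂ U)
    (B : Set (Set X)) (hB : IsTopologicalBasis B)
    (𝓤 : ℕ → Set (Set X)) (hdisj : ∀ n, (𝓤 n).PairwiseDisjoint id)
    (hπ : IsPiBase (⋃ n, 𝓤 n)) :
    ∃ B₀ B₁ : Set (Set X), B₀ ⊆ B ∧ B₁ ⊆ B ∧ Disjoint B₀ B₁ ∧
      IsTopologicalBasis B₀ ∧ IsPiBase B₁ := by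
  classical
  have hUo : ∀ n, ∀ U ∈ 𝓤 n, IsOpen U ∧ U.Nonempty := fun n U hU =>
    hπ.1 U (mem_iUnion.2 ⟨n, hU⟩)
  -- the choice step
  have step : ∀ (A : Set (Set X)) (U : Set X), ∃ P C V : Set X,
      (Dec A → IsOpen U → U.Nonempty →
        P ∈ B ∧ C ∈ B ∧ P.Nonempty ∧ P ⊂ C ∧ C ⊆ V ∧ V ⊆ U ∧
          ∀ F ∈ A, ¬ F ⊆ V ∧ (V ⊆ F ∨ Disjoint V F)) := by
    intro A U
    by_cases h : Dec A ∧ IsOpen U ∧ U.Nonempty
    · obtain ⟨hA, hU, hne⟩ := h
      obtain ⟨V, hVo, ⟨x, hx⟩, hVU, hV⟩ := hA U hU hne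
      obtain ⟨C, hC, hxC, hCV⟩ := hB.exists_subset_of_mem_open hx hVo
      obtain ⟨W, hWo, hxW, hWC⟩ := hmin x C (hB.isOpen hC) hxC
      obtain ⟨P, hP, hxP, hPW⟩ := hB.exists_subset_of_mem_open hxW hWo
      exact ⟨P, C, V, fun _ _ _ => ⟨hP, hC, ⟨x, hxP⟩,
        ⟨hPW.trans hWC.1, fun hc => hWC.2 (hc.trans hPW)⟩, hCV, hVU, hV⟩⟩
    · exact ⟨∅, ∅, ∅, fun h1 h2 h3 => absurd ⟨h1, h2, h3⟩ h⟩
  choose p c v hpcv using step
  let A : ℕ → Set (Set X) := fun n => Nat.rec ∅ (fun k S => S ∪ (p S) '' (𝓤 k)) n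
  have hA0 : A 0 = ∅ := rfl
  have hAs : ∀ n, A (n + 1) = A n ∪ (p (A n)) '' (𝓤 n) := fun n => rfl
  have hdec0 : Dec (A 0) := by
    intro U hU hne
    refine ⟨U, hU, hne, Subset.rfl, fun F hF => ?_⟩
    rw [hA0] at hF
    exact absurd hF (notMem_empty F)
  have key : ∀ n, Dec (A n) → ∀ U ∈ 𝓤 n,
      p (A n) U ∈ B ∧ c (A n) U ∈ B ∧ (p (A n) U).Nonempty ∧ p (A n) U ⊂ c (A n) U ∧
        c (A n) U ⊆ v (A n) U ∧ v (A n) U ⊆ U ∧
          ∀ F ∈ A n, ¬ F ⊆ v (A n) U ∧ (v (A n) U ⊆ F ∨ Disjoint (v (A n) U) F) :=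
    fun n hd U hU => hpcv (A n) U hd (hUo n U hU).1 (hUo n U hU).2
  have hdec : ∀ n, Dec (A n) := by
    intro n
    induction n with
    | zero => exact hdec0
    | succ n ih =>
      rw [hAs]
      refine dec_union hmin ih ?_ ?_
      · rintro _ ⟨U, hU, rfl⟩ _ ⟨U', hU', rfl⟩ hne
        have hne' : U ≠ U' := fun h => hne (by rw [h])
        have hd : Disjoint U U' := hdisj n hU hU' hne'
        obtain ⟨_, _, _, h1, h2, h3, _⟩ := key n ih U hU
        obtain ⟨_, _, _, h1', h2', h3', _⟩ := key n ih U' hU'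
        exact hd.mono ((h1.1.trans h2).trans h3) ((h1'.1.trans h2').trans h3')
      · rintro _ ⟨U, hU, rfl⟩
        obtain ⟨h0, _, hn, _⟩ := key n ih U hU
        exact ⟨hB.isOpen h0, hn⟩
  have hmono : ∀ m n, m ≤ n → A m ⊆ A n := by
    intro m n h
    induction h with
    | refl => exact Subset.rfl
    | step _ ih => exact ih.trans (by rw [hAs]; exact subset_union_left)
  have K : ∀ n, ∀ U ∈ 𝓤 n,
      p (A n) U ∈ B ∧ c (A n) U ∈ B ∧ (p (A n) U).Nonempty ∧ p (A n) U ⊂ c (A n) U ∧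
        c (A n) U ⊆ v (A n) U ∧ v (A n) U ⊆ U ∧
          ∀ F ∈ A n, ¬ F ⊆ v (A n) U ∧ (v (A n) U ⊆ F ∨ Disjoint (v (A n) U) F) :=
    fun n U hU => key n (hdec n) U hU
  -- earlier members
  have hmem : ∀ m n, m < n → ∀ U ∈ 𝓤 m, p (A m) U ∈ A n := by
    intro m n h U hU
    refine hmono (m + 1) n h ?_
    rw [hAs]
    exact Or.inr ⟨U, hU, rfl⟩
  let Q : Set (Set X) := ⋃ n, (p (A n)) '' (𝓤 n)
  have hQB : Q ⊆ B := by
    intro S hS
    obtain ⟨n, U, hU, rfl⟩ := mem_iUnion.1 hS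
    exact (K n U hU).1
  refine ⟨B \ Q, Q, sdiff_subset, hQB, disjoint_sdiff_left, ?_, ?_, ?_⟩
  · -- base
    have main : ∀ n, ∀ U ∈ 𝓤 n, ∀ x ∈ p (A n) U, ∃ D ∈ B \ Q, x ∈ D ∧ D ⊆ p (A n) U := by
      intro n U hU x hx
      by_contra hcon
      push Not at hcon
      have hcone : ∀ D ∈ B, x ∈ D → D ⊆ p (A n) U → D ∈ Q := by
        intro D hD hxD hDs
        by_contra hDQ
        exact hcon D ⟨hD, hDQ⟩ hxD hDs
      obtain ⟨W, hWo, hxW, hWs⟩ := hmin x _ (hB.isOpen (K n U hU).1) hx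
      obtain ⟨D, hD, hxD, hDW⟩ := hB.exists_subset_of_mem_open hxW hWo
      have hDs : D ⊂ p (A n) U := ⟨hDW.trans hWs.1, fun hc => hWs.2 (hc.trans hDW)⟩
      have hex : ∃ m, ∃ Z ∈ 𝓤 m, x ∈ p (A m) Z ∧ p (A m) Z ⊂ p (A n) U := by
        obtain ⟨m, Z, hZ, hZD⟩ := mem_iUnion.1 (hcone D hD hxD hDs.1)
        exact ⟨m, Z, hZ, by rw [hZD]; exact hxD, by rw [hZD]; exact hDs⟩
      obtain ⟨Z, hZ, hxZ, hZs⟩ := Nat.find_spec hex
      set m := Nat.find hex with hm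
      have hmin' : ∀ k < m, ¬ ∃ Z ∈ 𝓤 k, x ∈ p (A k) Z ∧ p (A k) Z ⊂ p (A n) U :=
        fun k hk => Nat.find_min hex hk
      obtain ⟨kZ1, kZ2, kZ3, kZ4, kZ5, kZ6, kZ7⟩ := K m Z hZ
      obtain ⟨kU1, kU2, kU3, kU4, kU5, kU6, kU7⟩ := K n U hU
      -- m > n
      have hnm : n < m := by
        rcases lt_trichotomy m n with h | h | h
        · exact absurd (hZs.1.trans (kU4.1.trans kU5)) (kU7 _ (hmem m n h Z hZ)).1
        · exfalso
          have hZ' : Z ∈ 𝓤 n := h ▸ hZ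
          by_cases hZU : Z = U
          · apply hZs.2
            rw [hZU, h]
          · have hd : Disjoint Z U := hdisj n hZ' hU hZU
            exact Set.disjoint_left.1 hd (kZ6 (kZ5 (kZ4.1 hxZ))) (kU6 (kU5 (kU4.1 hx)))
        · exact h
      have hPU := kZ7 _ (hmem n m hnm U hU)
      have hVsub : v (A m) Z ⊆ p (A n) U := by
        rcases hPU.2 with h | h
        · exact h
        · exact absurd hx (Set.disjoint_left.1 h (kZ5 (kZ4.1 hxZ)))
      have hCs : c (A m) Z ⊂ p (A n) U := by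
        refine ⟨kZ5.trans hVsub, fun hc => hPU.1 (hc.trans kZ5)⟩
      obtain ⟨k, Y, hY, hYc⟩ := mem_iUnion.1 (hcone _ kZ2 (kZ4.1 hxZ) hCs.1)
      have hxY : x ∈ p (A k) Y := by rw [hYc]; exact kZ4.1 hxZ
      rcases lt_trichotomy k m with h | h | h
      · exact hmin' k h ⟨Y, hY, hxY, by rw [hYc]; exact hCs⟩
      · have hY' : Y ∈ 𝓤 m := h ▸ hY
        obtain ⟨_, _, _, l4, l5, l6, _⟩ := K k Y hY
        by_cases hYZ : Y = Z
        · apply kZ4.2
          rw [← hYc, hYZ, h]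
        · have hd : Disjoint Y Z := hdisj m hY' hZ hYZ
          exact Set.disjoint_left.1 hd (l6 (l5 (l4.1 hxY))) (kZ6 (kZ5 (kZ4.1 hxZ)))
      · obtain ⟨_, _, _, l4, l5, l6, l7⟩ := K k Y hY
        refine (l7 _ (hmem m k h Z hZ)).1 ?_
        exact (kZ4.1.trans hYc.symm.subset).trans (l4.1.trans l5)
    refine isTopologicalBasis_of_isOpen_of_nhds (fun D hD => hB.isOpen hD.1) ?_
    intro x O hx hO
    obtain ⟨D, hD, hxD, hDO⟩ := hB.exists_subset_of_mem_open hx hO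
    by_cases hDQ : D ∈ Q
    · obtain ⟨n, U, hU, hUD⟩ := mem_iUnion.1 hDQ
      obtain ⟨E, hE, hxE, hEs⟩ := main n U hU x (by rw [hUD]; exact hxD)
      exact ⟨E, hE, hxE, (hEs.trans hUD.subset).trans hDO⟩
    · exact ⟨D, ⟨hD, hDQ⟩, hxD, hDO⟩
  · intro S hS
    obtain ⟨n, U, hU, rfl⟩ := mem_iUnion.1 hS
    exact ⟨hB.isOpen (K n U hU).1, (K n U hU).2.2.1⟩
  · intro V hV hVne
    obtain ⟨U, hU, hUV⟩ := hπ.2 V hV hVne
    obtain ⟨n, hn⟩ := mem_iUnion.1 hU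
    obtain ⟨_, _, _, l4, l5, l6, _⟩ := K n U hn
    exact ⟨p (A n) U, mem_iUnion.2 ⟨n, U, hn, rfl⟩, ((l4.1.trans l5).trans l6).trans hUV⟩

end

/-- `T₁` spaces without isolated points have no smallest neighbourhoods. -/
theorem shrink_of_t1 {X : Type u} [TopologicalSpace X] [T1Space X]
    (hiso : ∀ x : X, ¬ IsOpen ({x} : Set X)) (x : X) (U : Set X) (hU : IsOpen U) (hx : x ∈ U) :
    ∃ W : Set X, IsOpen W ∧ x ∈ W ∧ W ⊂ U := by
  have hne : ∃ y ∈ U, y ≠ x := by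
    by_contra hcon
    push Not at hcon
    apply hiso x
    have : U = {x} := by
      ext y
      constructor
      · intro hy
        exact hcon y hy
      · rintro rfl
        exact hx
    rw [← this]
    exact hU
  obtain ⟨y, hy, hyx⟩ := hne
  refine ⟨U ∩ {y}ᶜ, hU.inter isOpen_compl_singleton, ⟨hx, fun h => hyx h.symm⟩,
    inter_subset_left, fun hc => ?_⟩
  exact (hc hy).2 rfl

/-- (1) Positive answer for every `T₁` space without isolated points which has a sigma-disjoint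
pi-base.  (2) In particular with a countable pi-base.
(3) The same as (1) with `T₁` weakened to no point having a smallest neighbourhood. -/
theorem result :
    (∀ (X : Type u) [TopologicalSpace X] [T1Space X], (∀ x : X, ¬ IsOpen ({x} : Set X)) →
      (∃ P : ℕ → Set (Set X), (∀ n, (P n).PairwiseDisjoint id) ∧ IsPiBase (⋃ n, P n)) →
      ∀ B : Set (Set X), IsTopologicalBasis B →
        ∃ B₀ B₁ : Set (Set X), B₀ ⊆ B ∧ B₁ ⊆ B ∧ Disjoint B₀ B₁ ∧
          IsTopologicalBasis B₀ ∧ IsPiBase B₁) ∧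
    (∀ (X : Type u) [TopologicalSpace X] [T1Space X], (∀ x : X, ¬ IsOpen ({x} : Set X)) →
      (∃ P : Set (Set X), P.Countable ∧ IsPiBase P) →
      ∀ B : Set (Set X), IsTopologicalBasis B →
        ∃ B₀ B₁ : Set (Set X), B₀ ⊆ B ∧ B₁ ⊆ B ∧ Disjoint B₀ B₁ ∧
          IsTopologicalBasis B₀ ∧ IsPiBase B₁) ∧
    (∀ (X : Type u) [TopologicalSpace X],
      (∀ (x : X) (U : Set X), IsOpen U → x ∈ U → ∃ W : Set X, IsOpen W ∧ x ∈ W ∧ W ⊂ U) →
      (∃ P : ℕ → Set (Set X), (∀ n, (P n).PairwiseDisjoint id) ∧ IsPiBase (⋃ n, P n)) →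
      ∀ B : Set (Set X), IsTopologicalBasis B →
        ∃ B₀ B₁ : Set (Set X), B₀ ⊆ B ∧ B₁ ⊆ B ∧ Disjoint B₀ B₁ ∧
          IsTopologicalBasis B₀ ∧ IsPiBase B₁) := by
  refine ⟨?_, ?_, ?_⟩
  · intro X _ _ hiso hP B hB
    obtain ⟨P, hP1, hP2⟩ := hP
    exact split (shrink_of_t1 hiso) B hB P hP1 hP2
  · intro X _ _ hiso hP B hB
    obtain ⟨P, hP1, hP2⟩ := hP
    rcases P.eq_empty_or_nonempty with rfl | hne
    · refine split (shrink_of_t1 hiso) B hB (fun _ => ∅) (fun _ => pairwiseDisjoint_empty) ?_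
      simpa using hP2
    · obtain ⟨f, rfl⟩ := hP1.exists_eq_range hne
      refine split (shrink_of_t1 hiso) B hB (fun n => {f n})
        (fun n => pairwiseDisjoint_singleton _ _) ?_
      have : (⋃ n, ({f n} : Set (Set X))) = range f := by
        ext s
        simp [eq_comm]
      rw [this]
      exact hP2
  · intro X _ hmin hP B hB
    obtain ⟨P, hP1, hP2⟩ := hP
    exact split hmin B hB P hP1 hP2

end Pool.Agent.Results.MP_42a2a8_gt.SigmaDisjoint
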