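import Mathlib

/-!
A `T₀` space without isolated points and a base of it which does not contain disjoint
subfamilies, one a base and the other a pi-base.
-/

open Set TopologicalSpace

namespace Pool.Agent.Results.MP_42a2a8_gt.TZeroCounterexample

universe u

/-- `P` is a pi-base of `X`: a family of nonempty open sets such that every nonempty open set
contains a member of `P`. -/
def IsPiBase {X : Type u} [TopologicalSpace X] (P : Set (Set X)) : Prop :=
  (∀ U ∈ P, IsOpen U ∧ U.Nonempty) ∧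
    ∀ V : Set X, IsOpen V → V.Nonempty → ∃ U ∈ P, U ⊆ V

/-- The `T₀` counterexample to the literal wording: final segments of `ℕ`. -/
theorem result : ∃ (X : Type) (_ : TopologicalSpace X), T0Space X ∧ Nonempty X ∧
    (∀ x : X, ¬ IsOpen ({x} : Set X)) ∧
    ∃ B : Set (Set X), IsTopologicalBasis B ∧
      ¬ ∃ B₀ B₁ : Set (Set X), B₀ ⊆ B ∧ B₁ ⊆ B ∧ Disjoint B₀ B₁ ∧
        IsTopologicalBasis B₀ ∧ IsPiBase B₁ := by
  let t : TopologicalSpace ℕ := Topology.upperSet ℕ
  have hopen : ∀ s : Set ℕ, IsOpen s ↔ IsUpperSet s := fun s => Iff.rfl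
  have hIci : ∀ n : ℕ, IsOpen (Ici n) := fun n => (hopen _).2 (isUpperSet_Ici n)
  refine ⟨ℕ, t, ?_, ⟨0⟩, ?_, Set.range (fun n : ℕ => Ici n), ?_, ?_⟩
  · refine ⟨fun x y hxy => ?_⟩
    have h1 : x ∈ Ici y := (hxy.mem_open_iff (hIci y)).2 (le_refl y)
    have h2 : y ∈ Ici x := (hxy.mem_open_iff (hIci x)).1 (le_refl x)
    exact le_antisymm h2 h1
  · intro x hx
    have h := (hopen _).1 hx
    have h1 : x + 1 ∈ ({x} : Set ℕ) := h (Nat.le_succ x) (mem_singleton x)
    have h2 : x + 1 = x := h1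
    omega
  · refine isTopologicalBasis_of_isOpen_of_nhds ?_ ?_
    · rintro _ ⟨n, rfl⟩
      exact hIci n
    · intro a u ha hu
      exact ⟨Ici a, ⟨a, rfl⟩, le_refl a, fun b hb => (hopen _).1 hu hb ha⟩
  · rintro ⟨B₀, B₁, h0, h1, hd, hB, hπ⟩
    obtain ⟨U, hU, -⟩ := hπ.2 univ isOpen_univ ⟨0, trivial⟩
    obtain ⟨n, rfl⟩ := h1 hU
    obtain ⟨V, hV, hnV, hVn⟩ := hB.exists_subset_of_mem_open (le_refl n : n ∈ Ici n) (hIci n)
    have hVe : V = Ici n := by
      refine hVn.antisymm fun b hb => ?_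
      exact (hopen _).1 (hB.isOpen hV) hb hnV
    rw [hVe] at hV
    exact Set.disjoint_left.1 hd hV hU

end Pool.Agent.Results.MP_42a2a8_gt.TZeroCounterexample
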